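import Pool.Agent.H97Z.SecRen

set_option autoImplicit false

open Pool.Agent.H97Z.Sec
open Pool.Agent.Helper192.Dil (IsUMD IsFunctionLattice IsNonneg)

/-- There are a UMD Banach lattice `X` (a solid Banach space of complex functions on a countable
set) and a sectorial operator `A` of angle `0` on `X` such that `-A` generates a positive
contractive `C₀`-semigroup, `A` has no bounded `H^∞`-calculus and some imaginary power of `A` is
unbounded. -/
theorem Pool.Agent.Results.MP_04e97d_an.ACounterexample.result :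
    ∃ (ι X : Type) (_ : NormedAddCommGroup X) (_ : NormedSpace ℂ X) (_ : CompleteSpace X)
      (ev : X →ₗ[ℂ] (ι → ℂ)) (A : X →ₗ.[ℂ] X) (T : ℝ → X →L[ℂ] X),
      Countable ι ∧ IsFunctionLattice ev ∧ IsUMD X ∧ IsSectorial A ∧ sectAngle A = 0 ∧
      IsC0Semigroup T ∧ NegGenerates A T ∧ (∀ t, 0 ≤ t → ‖T t‖ ≤ 1) ∧
      (∀ t, 0 ≤ t → ∀ x, IsNonneg ev x → IsNonneg ev (T t x)) ∧
      ¬ HasBoundedHinf A ∧ ∃ s : ℝ, ¬ ImPowerBounded A s :=
  ⟨Idx, XX, inferInstance, inferInstance, inferInstance, evX, M3.A, M3.T, inferInstance,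
    evX_lattice, XX_umd, M3.isSectorial, M3.sectAngle_eq, M3.isC0, M3.negGenerates,
    fun _ ht => M3_contr ht, fun t _ => M3_pos t, M3.not_hinf M3_na, s0, M3.not_bip M3_na⟩
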